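import Pool.Agent.L7h1.PX.Stm

/-!
# H90 of project PX (statement of helper1)
-/

set_option autoImplicit false

namespace Pool.Agent.L7h30.PX

open Pool.Agent.L7h1.PX

theorem s_H90 : S_H90 := by
  intro p _ B H _ _ _ _ _ hζ k x hx h
  have hp : Nat.Prime p := Fact.out
  have hone : ∀ (k : ℕ) (y : H), y ^ p ^ k = 1 → y = 1 := by
    intro k
    induction k with
    | zero => intro y hy; simpa using hy
    | succ k ih =>
      intro y hy
      rw [pow_succ, mul_comm, pow_mul] at hy
      exact hζ y (ih _ hy)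
  have hinj : ∀ y y' : H, y' ≠ 0 → y ^ p ^ k = y' ^ p ^ k → y = y' := by
    intro y y' hy' he
    have : (y / y') ^ p ^ k = 1 := by
      rw [div_pow, he, div_self (pow_ne_zero _ hy')]
    exact (div_eq_one_iff_eq hy').1 (hone k _ this)
  choose y hy using h
  have hpk : p ^ k ≠ 0 := pow_ne_zero _ hp.ne_zero
  have hy0 : ∀ g, y g ≠ 0 := by
    intro g h0
    have := hy g
    rw [h0, zero_pow hpk, mul_zero] at this
    exact hx (by simpa using this)
  let f : (H ≃ₐ[B] H) → Hˣ := fun g => Units.mk0 (y g) (hy0 g)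
  have hf : groupCohomology.IsMulCocycle₁ f := by
    intro g h
    apply Units.ext
    change y (g * h) = g (y h) * y g
    apply hinj _ _ (mul_ne_zero (by simpa using hy0 h) (hy0 g))
    have e1 := hy (g * h)
    have e2 : (g * h) x = g (h x) := rfl
    rw [e2, hy h, map_mul, map_pow, hy g, mul_assoc] at e1
    have := mul_left_cancel₀ hx e1
    rw [← this, mul_pow, mul_comm]
  obtain ⟨z, hz⟩ := groupCohomology.isMulCoboundary₁_of_isMulCocycle₁_of_aut_to_units f hf
  have hfix : ∀ g : H ≃ₐ[B] H, g (x / (z : H) ^ p ^ k) = x / (z : H) ^ p ^ k := by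
    intro g
    have h1 := congrArg Units.val (hz g)
    rw [Units.val_div_eq_div_val] at h1
    change g (z : H) / (z : H) = y g at h1
    rw [map_div₀, map_pow, hy g, ← h1, div_pow]
    have hz0 : (z : H) ≠ 0 := z.ne_zero
    have hgz : g (z : H) ≠ 0 := by simpa using hz0
    field_simp
  have hmem : x / (z : H) ^ p ^ k ∈ (⊥ : IntermediateField B H) := by
    rw [IsGalois.mem_bot_iff_fixed]
    exact hfix
  rw [IntermediateField.mem_bot] at hmem
  obtain ⟨a, ha⟩ := hmem
  have hz0 : (z : H) ^ p ^ k ≠ 0 := pow_ne_zero _ z.ne_zero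
  refine ⟨a, z, ?_, z.ne_zero, ?_⟩
  · rintro rfl
    rw [map_zero] at ha
    exact (div_ne_zero hx hz0) ha.symm
  · rw [ha, div_mul_cancel₀ _ hz0]

end Pool.Agent.L7h30.PX
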