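import Pool.Agent.L7h1.PX.Stm

/-!
# DES of project PX (statement of helper1)
-/

set_option autoImplicit false

namespace Pool.Agent.L7h30.PX

open NumberField TensorProduct Pool.Agent.W289.SL Module IsDedekindDomain Pool.Agent.L7h1.PX
open Polynomial IntermediateField

section algebra

set_option linter.unusedSectionVars false

variable (B H F Ω : Type) [Field B] [Field H] [Field F] [Field Ω] [CharZero F] [CharZero B]
  [IsAlgClosed Ω]
  [Algebra B H] [Algebra B F] [Algebra B Ω] [Algebra H Ω] [Algebra F Ω]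
  [IsScalarTower B F Ω] [IsScalarTower B H Ω] [IsGalois B H] [FiniteDimensional B H]

/-- a polynomial whose splitting field over `F` is the compositum of `F` and `H` -/
noncomputable def pol : F[X] :=
  (minpoly B (Field.powerBasisOfFiniteOfSeparable B H).gen).map (algebraMap B F)

/-- the compositum of `F` and `H` in `Ω` -/
noncomputable def comp : IntermediateField F Ω := adjoin F ((pol B H F).rootSet Ω)

theorem pol_ne : pol B H F ≠ 0 :=
  (Polynomial.map_ne_zero_iff (algebraMap B F).injective).2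
    (minpoly.ne_zero (Algebra.IsIntegral.isIntegral _))

theorem root_sub (x : Ω) (hx : x ∈ (pol B H F).rootSet Ω) : x ∈ Set.range (algebraMap H Ω) := by
  rw [mem_rootSet] at hx
  have h1 := hx.2
  rw [pol, aeval_map_algebraMap] at h1
  have h2 := Normal.splits (inferInstance : Normal B H) (Field.powerBasisOfFiniteOfSeparable B H).gen
  have h3 : ((minpoly B (Field.powerBasisOfFiniteOfSeparable B H).gen).map (algebraMap B H)) ≠ 0 :=
    (Polynomial.map_ne_zero_iff (algebraMap B H).injective).2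
      (minpoly.ne_zero (Algebra.IsIntegral.isIntegral _))
  have h4 := h2.mem_range_of_isRoot h3 (i := algebraMap H Ω) (x := x)
  obtain ⟨y, hy⟩ := h4 (by
    rw [Polynomial.map_map, ← IsScalarTower.algebraMap_eq, IsRoot, eval_map_algebraMap]
    exact h1)
  exact ⟨y, hy⟩

theorem mem_comp (x : H) : algebraMap H Ω x ∈ comp B H F Ω := by
  obtain ⟨q, hq⟩ := (Field.powerBasisOfFiniteOfSeparable B H).exists_eq_aeval' x
  have hθ : algebraMap H Ω (Field.powerBasisOfFiniteOfSeparable B H).gen ∈ comp B H F Ω := by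
    apply subset_adjoin
    rw [mem_rootSet]
    refine ⟨pol_ne B H F, ?_⟩
    rw [pol, aeval_map_algebraMap, aeval_algebraMap_apply, minpoly.aeval, map_zero]
  rw [hq, ← aeval_algebraMap_apply, aeval_def, eval₂_eq_sum_range]
  refine sum_mem fun i _ => mul_mem ?_ (pow_mem hθ i)
  rw [IsScalarTower.algebraMap_apply B F Ω]
  exact IntermediateField.algebraMap_mem _ _

instance : (pol B H F).IsSplittingField F (comp B H F Ω) :=
  adjoin_rootSet_isSplittingField (IsAlgClosed.splits _)

instance : FiniteDimensional F (comp B H F Ω) :=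
  IsSplittingField.finiteDimensional _ (pol B H F)

instance : Normal F (comp B H F Ω) := Normal.of_isSplittingField (pol B H F)

instance : IsGalois F (comp B H F Ω) where

/-- the inclusion of `H` -/
noncomputable def incl : H →+* comp B H F Ω :=
  (algebraMap H Ω).codRestrict (comp B H F Ω) (mem_comp B H F Ω)

theorem finrank_dvd : finrank F (comp B H F Ω) ∣ finrank B H := by
  let _ : Algebra H (comp B H F Ω) := (incl B H F Ω).toAlgebra
  have : IsScalarTower B H (comp B H F Ω) := by
    refine IsScalarTower.of_algebraMap_eq fun x => ?_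
    apply Subtype.ext
    change algebraMap B Ω x = algebraMap H Ω (algebraMap B H x)
    rw [← IsScalarTower.algebraMap_apply]
  rw [← IsGalois.card_aut_eq_finrank F (comp B H F Ω), ← IsGalois.card_aut_eq_finrank B H]
  let ψ : (comp B H F Ω ≃ₐ[F] comp B H F Ω) →* (H ≃ₐ[B] H) :=
    (AlgEquiv.restrictNormalHom (F := B) (K₁ := comp B H F Ω) H).comp
      (MonoidHom.mk' (fun g => g.restrictScalars B) (fun _ _ => rfl))
  refine Subgroup.card_dvd_of_injective ψ ?_
  rw [injective_iff_map_eq_one]
  intro g hg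
  have h1 : ∀ x : H, g (incl B H F Ω x) = incl B H F Ω x := by
    intro x
    have := AlgEquiv.restrictNormal_commutes (F := B) (g.restrictScalars B) H x
    have h2 : (g.restrictScalars B).restrictNormal H x = x := by
      have := congrArg (fun h : (H ≃ₐ[B] H) => h x) hg
      exact this
    rw [h2] at this
    exact this.symm
  have h3 : (g : comp B H F Ω →ₐ[F] comp B H F Ω) = AlgHom.id F _ := by
    have := (adjoin_rootSet_isSplittingField (K := F) (L := Ω) (p := pol B H F)
      (IsAlgClosed.splits _)).adjoin_rootSet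
    refine AlgHom.ext_of_adjoin_eq_top this ?_
    intro x hx
    obtain ⟨y, hy⟩ := root_sub B H F Ω (x : Ω) (by
      rw [mem_rootSet] at hx ⊢
      refine ⟨hx.1, ?_⟩
      have h5 := congrArg (fun z : comp B H F Ω => (z : Ω)) hx.2
      have h6 := aeval_algHom_apply (comp B H F Ω).val x (pol B H F)
      exact h6.trans h5)
    have : x = incl B H F Ω y := Subtype.ext hy.symm
    rw [this]
    exact h1 y
  ext x
  exact congrArg (fun h : comp B H F Ω →ₐ[F] comp B H F Ω => ((h x : comp B H F Ω) : Ω)) h3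

theorem pow_one_of {p : ℕ} {F : Type} [Field F] (h : ∀ ζ : F, ζ ^ p = 1 → ζ = 1) (k : ℕ) (x : F)
    (hx : x ^ p ^ k = 1) : x = 1 := by
  induction k generalizing x with
  | zero => simpa using hx
  | succ k ih =>
    rw [pow_succ, mul_comm, pow_mul] at hx
    exact h x (ih _ hx)

theorem hone {p : ℕ} (hp : p.Prime) (n : ℕ) (hn : finrank B H = p ^ n)
    (h : ∀ ζ : F, ζ ^ p = 1 → ζ = 1) (ζ : comp B H F Ω) (h1 : ζ ^ p = 1) : ζ = 1 := by
  by_contra hne
  have hprim : IsPrimitiveRoot ζ p := by
    have : Fact p.Prime := ⟨hp⟩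
    rw [IsPrimitiveRoot.iff_orderOf]
    exact orderOf_eq_prime h1 hne
  have h2 : minpoly F ζ ∣ cyclotomic p F := by
    refine minpoly.dvd _ _ ?_
    rw [aeval_def, ← eval_map, map_cyclotomic]
    exact hprim.isRoot_cyclotomic hp.pos
  have h3 : (minpoly F ζ).natDegree ≤ p - 1 := by
    have := natDegree_le_of_dvd h2 (cyclotomic_ne_zero p F)
    rwa [natDegree_cyclotomic, Nat.totient_prime hp] at this
  have h4 : (minpoly F ζ).natDegree ∣ p ^ n := by
    rw [← hn]
    refine dvd_trans ?_ (finrank_dvd B H F Ω)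
    rw [← IntermediateField.adjoin.finrank (Algebra.IsIntegral.isIntegral ζ)]
    exact ⟨_, (finrank_mul_finrank F F⟮ζ⟯ (comp B H F Ω)).symm⟩
  obtain ⟨j, -, hj⟩ := (Nat.dvd_prime_pow hp).1 h4
  have hj0 : j = 0 := by
    by_contra hj0
    have : p ^ 1 ≤ p ^ j := Nat.pow_le_pow_right hp.pos (Nat.one_le_iff_ne_zero.2 hj0)
    have := hp.one_lt
    rw [pow_one] at *
    omega
  rw [hj0, pow_zero, minpoly.natDegree_eq_one_iff] at hj
  obtain ⟨y, hy⟩ := hj
  have hy1 : y ^ p = 1 := by
    apply (algebraMap F (comp B H F Ω)).injective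
    rw [map_pow, hy, h1, map_one]
  apply hne
  rw [← hy, h y hy1, map_one]

theorem hdesc {p : ℕ} (hp : p.Prime) (n : ℕ) (hn : finrank B H = p ^ n)
    (h : ∀ ζ : F, ζ ^ p = 1 → ζ = 1) (k : ℕ) (b : comp B H F Ω) (a : F)
    (hb : b ^ p ^ k = algebraMap F _ a) : ∃ y : F, algebraMap F _ y = b := by
  rcases eq_or_ne b 0 with rfl | hb0
  · exact ⟨0, map_zero _⟩
  have h1 : b ∈ (⊥ : IntermediateField F (comp B H F Ω)) := by
    rw [IsGalois.mem_bot_iff_fixed]
    intro g
    have h2 : g b ^ p ^ k = b ^ p ^ k := by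
      rw [← map_pow, hb, AlgEquiv.commutes]
    have h3 : (g b / b) ^ p ^ k = 1 := by
      rw [div_pow, h2, div_self (pow_ne_zero _ hb0)]
    exact (div_eq_one_iff_eq hb0).1 (pow_one_of (hone B H F Ω hp n hn h) k _ h3)
  rw [IntermediateField.mem_bot] at h1
  exact h1

end algebra

section top

variable {p : ℕ} [Fact p.Prime]

theorem closed_inter (A : Subfield ℂ_[p]) (hA : IsClosed (A : Set ℂ_[p]))
    (E : IntermediateField A ℂ_[p]) [FiniteDimensional A E] : IsClosed (E : Set ℂ_[p]) := by
  have hp : Nat.Prime p := Fact.out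
  let _ : NontriviallyNormedField A :=
    { (inferInstance : NormedField A) with
      non_trivial := by
        refine ⟨((p : ℕ) : A)⁻¹, ?_⟩
        have h1 : ‖((p : ℕ) : A)‖ = (p : ℝ)⁻¹ := by
          change ‖(((p : ℕ) : A) : ℂ_[p])‖ = (p : ℝ)⁻¹
          have : (((p : ℕ) : A) : ℂ_[p]) = (((p : ℕ) : ℚ_[p]) : ℂ_[p]) := by simp
          rw [this, PadicComplex.norm_extends', Padic.norm_p]
        rw [norm_inv, h1, inv_inv]
        exact_mod_cast hp.one_lt }
  have : CompleteSpace A := hA.completeSpace_coe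
  have : ContinuousSMul A ℂ_[p] := ⟨by
    have : (fun q : A × ℂ_[p] => q.1 • q.2) = fun q : A × ℂ_[p] => (q.1 : ℂ_[p]) * q.2 := rfl
    rw [this]
    fun_prop⟩
  have hf : FiniteDimensional A (Subalgebra.toSubmodule E.toSubalgebra) :=
    (inferInstance : FiniteDimensional A E)
  exact (Subalgebra.toSubmodule E.toSubalgebra).closed_of_finiteDimensional

set_option maxHeartbeats 4000000 in
theorem s_DES : S_DES := by
  intro p _ B H _ _ _ _ _ _ n hn σ hζ
  have hp : Nat.Prime p := Fact.out
  set A : Subfield ℂ_[p] := cl (σ.comp (algebraMap B H)) with hA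
  have hAc : IsClosed (A : Set ℂ_[p]) := by
    rw [hA]; exact Subfield.isClosed_topologicalClosure _
  have hBA : ∀ x : B, σ (algebraMap B H x) ∈ A := fun x =>
    Subfield.le_topologicalClosure _ ⟨x, rfl⟩
  let _ : Algebra B A := (RingHom.codRestrict (σ.comp (algebraMap B H)) A hBA).toAlgebra
  let _ : Algebra B ℂ_[p] := (σ.comp (algebraMap B H)).toAlgebra
  let _ : Algebra H ℂ_[p] := σ.toAlgebra
  have : IsScalarTower B A ℂ_[p] := IsScalarTower.of_algebraMap_eq fun x => rfl
  have : IsScalarTower B H ℂ_[p] := IsScalarTower.of_algebraMap_eq fun x => rfl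
  have hmem : ∀ x : ℂ_[p], x ∈ comp B H A ℂ_[p] ↔ x ∈ cl σ := by
    intro x
    constructor
    · intro hx
      have h1 : ∀ a : A, algebraMap A ℂ_[p] a ∈ cl σ := by
        intro a
        have : (A : Set ℂ_[p]) ⊆ (cl σ : Set ℂ_[p]) := by
          refine closure_mono ?_
          rintro _ ⟨y, rfl⟩
          exact ⟨algebraMap B H y, rfl⟩
        exact this a.2
      have h2 : comp B H A ℂ_[p] ≤ (cl σ).toIntermediateField h1 := by
        unfold comp
        rw [adjoin_le_iff]
        intro y hy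
        obtain ⟨z, hz⟩ := root_sub B H A ℂ_[p] y hy
        rw [← hz]
        exact Subfield.le_topologicalClosure _ ⟨z, rfl⟩
      exact h2 hx
    · intro hx
      have h1 : IsClosed (comp B H A ℂ_[p] : Set ℂ_[p]) := closed_inter A hAc _
      have h2 : closure (σ.fieldRange : Set ℂ_[p]) ⊆ (comp B H A ℂ_[p] : Set ℂ_[p]) := by
        refine closure_minimal ?_ h1
        rintro _ ⟨y, rfl⟩
        exact mem_comp B H A ℂ_[p] y
      exact h2 hx
  have hζA : ∀ ζ : A, ζ ^ p = 1 → ζ = 1 := by
    intro ζ h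
    exact Subtype.ext (hζ ζ ζ.2 (congrArg (fun z : A => (z : ℂ_[p])) h))
  refine ⟨?_, ?_⟩
  · intro ζ hζm hζp
    have := hone B H A ℂ_[p] hp n hn hζA ⟨ζ, (hmem ζ).2 hζm⟩ (Subtype.ext hζp)
    exact congrArg (fun z : comp B H A ℂ_[p] => (z : ℂ_[p])) this
  · intro k b hb hbk
    obtain ⟨y, hy⟩ := hdesc B H A ℂ_[p] hp n hn hζA k ⟨b, (hmem b).2 hb⟩ ⟨b ^ p ^ k, hbk⟩
      (Subtype.ext rfl)
    have : (y : ℂ_[p]) = b := congrArg (fun z : comp B H A ℂ_[p] => (z : ℂ_[p])) hy
    rw [← this]
    exact y.2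

end top

end Pool.Agent.L7h30.PX
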