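import Pool.Agent.L7h30.PX.Vd
import Pool.Agent.L7h30.PX.Des

/-!
# TINY, LOGB of project PX (statements of helper1)
-/

set_option autoImplicit false

namespace Pool.Agent.L7h30.PX

open NumberField Pool.Agent.W289.SL Module IsDedekindDomain Pool.Agent.L7h1.PX

variable {p : ℕ} [Fact p.Prime]

theorem norm_nat_ge (m : ℕ) (hm : 0 < m) : 1 ≤ ‖(m : ℂ_[p])‖ * m := by
  have h1 : ‖(m : ℂ_[p])‖ = ‖(m : ℚ_[p])‖ := by
    rw [← PadicComplex.norm_extends' p (m : ℚ_[p])]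
    simp
  have hp : Nat.Prime p := Fact.out
  have hm' : (m : ℚ_[p]) ≠ 0 := by exact_mod_cast hm.ne'
  rw [h1, Padic.norm_eq_zpow_neg_valuation hm', Padic.valuation_natCast, zpow_neg, zpow_natCast]
  have h2 : p ^ padicValNat p m ≤ m := Nat.le_of_dvd hm pow_padicValNat_dvd
  have h3 : (0 : ℝ) < (p : ℝ) ^ padicValNat p m := by
    have : (0 : ℝ) < p := by exact_mod_cast hp.pos
    positivity
  rw [← div_eq_inv_mul, le_div_iff₀ h3, one_mul]
  exact_mod_cast h2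

theorem L_one {L : ℂ_[p] → ℂ_[p]} (hL : IsIwasawaLog p L) : L 1 = 0 := by
  have h := hL.mul 1 1 one_ne_zero one_ne_zero
  rw [mul_one] at h
  exact left_eq_add.1 h

theorem L_pow {L : ℂ_[p] → ℂ_[p]} (hL : IsIwasawaLog p L) (x : ℂ_[p]) (hx : x ≠ 0) (n : ℕ) :
    L (x ^ n) = n * L x := by
  induction n with
  | zero => simp [L_one hL]
  | succ n ih =>
    rw [pow_succ, hL.mul _ _ (pow_ne_zero _ hx) hx, ih]
    push_cast
    ring

/-- the logarithm near one -/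
theorem norm_L {L : ℂ_[p] → ℂ_[p]} (hL : IsIwasawaLog p L) (z : ℂ_[p]) (hz : ‖z‖ ≤ 1 / 4) :
    ‖L (1 + z)‖ = ‖z‖ := by
  have hz1 : ‖z‖ < 1 := by linarith
  have hs := hL.ser z hz1
  have h0 : 0 ≤ ‖z‖ := norm_nonneg _
  have key : ‖L (1 + z) - z‖ ≤ ‖z‖ / 2 := by
    have hs2 := hs.update 0 0
    have hs3 : HasSum (Function.update (fun n : ℕ => (-1 : ℂ_[p]) ^ n * z ^ (n + 1) / ((n : ℂ_[p]) + 1)) 0 0)
        (L (1 + z) - z) := by
      have e0 : L (1 + z) - z = 0 - (fun n : ℕ => (-1 : ℂ_[p]) ^ n * z ^ (n + 1) /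
          ((n : ℂ_[p]) + 1)) 0 + L (1 + z) := by
        simp only [pow_zero, zero_add, pow_one, one_mul, Nat.cast_zero, div_one]
        ring
      rw [e0]
      exact hs2
    have hcl : IsClosed {x : ℂ_[p] | ‖x‖ ≤ ‖z‖ / 2} := isClosed_le continuous_norm continuous_const
    refine hcl.mem_of_tendsto hs3 (Filter.Eventually.of_forall fun s => ?_)
    refine IsUltrametricDist.norm_sum_le_of_forall_le_of_nonneg (by linarith) fun n _ => ?_
    rcases Nat.eq_zero_or_pos n with rfl | hn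
    · simp; linarith
    rw [Function.update_of_ne hn.ne', norm_div, norm_mul, norm_pow, norm_neg, norm_one, one_pow,
      one_mul, norm_pow]
    have e1 : ((n : ℂ_[p]) + 1) = ((n + 1 : ℕ) : ℂ_[p]) := by push_cast; rfl
    have h1 := norm_nat_ge (p := p) (n + 1) (Nat.succ_pos n)
    have hpos : 0 < ‖((n + 1 : ℕ) : ℂ_[p])‖ := by
      rw [norm_pos_iff]
      exact_mod_cast Nat.succ_ne_zero n
    rw [e1, div_le_iff₀ hpos]
    have h2 : ((n + 1 : ℕ) : ℝ) ≤ 2 ^ n := by exact_mod_cast Nat.lt_two_pow_self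
    have h3 : ‖z‖ ^ n ≤ (1 / 4) ^ n := pow_le_pow_left₀ h0 hz n
    have h4 : (1 / 4 : ℝ) ^ n * 2 ^ n ≤ 1 / 2 := by
      rw [← mul_pow]
      norm_num
      calc (1 / 2 : ℝ) ^ n ≤ (1 / 2 : ℝ) ^ 1 := pow_le_pow_of_le_one (by norm_num) (by norm_num) hn
        _ = 1 / 2 := by norm_num
    have h5 : ‖z‖ ^ n ≤ 1 / 2 * ‖((n + 1 : ℕ) : ℂ_[p])‖ := by
      have h6 : ‖z‖ ^ n * ((n + 1 : ℕ) : ℝ) ≤ 1 / 2 := by
        calc _ ≤ (1 / 4) ^ n * 2 ^ n := by gcongr
          _ ≤ 1 / 2 := h4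
      have h7 : (0 : ℝ) < ((n + 1 : ℕ) : ℝ) := by positivity
      calc ‖z‖ ^ n ≤ 1 / 2 / ((n + 1 : ℕ) : ℝ) := by rw [le_div_iff₀ h7]; exact h6
        _ ≤ 1 / 2 * ‖((n + 1 : ℕ) : ℂ_[p])‖ := by
          rw [div_le_iff₀ h7, mul_assoc]
          nlinarith
    calc ‖z‖ ^ (n + 1) = ‖z‖ * ‖z‖ ^ n := by ring
      _ ≤ ‖z‖ * (1 / 2 * ‖((n + 1 : ℕ) : ℂ_[p])‖) := by gcongr
      _ = _ := by ring
  rcases eq_or_ne z 0 with rfl | hz0
  · simp [L_one hL]
  have hpos : 0 < ‖z‖ := norm_pos_iff.2 hz0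
  have e : L (1 + z) = (L (1 + z) - z) + z := by ring
  rw [e, IsUltrametricDist.norm_add_eq_max_of_norm_ne_norm (by linarith)]
  exact max_eq_right (by linarith)

/-- roots near one in closed subfields -/
theorem root_near (A : Subfield ℂ_[p]) (hA : IsClosed (A : Set ℂ_[p])) (m : ℕ) (hm : 0 < m) :
    ∃ ε : ℝ, 0 < ε ∧ ∀ z ∈ A, ‖z‖ ≤ ε → ∃ y ∈ A, y ^ m = 1 + z := by
  have hm0 : (m : ℂ_[p]) ≠ 0 := by exact_mod_cast hm.ne'
  have hmn : 0 < ‖(m : ℂ_[p])‖ := norm_pos_iff.2 hm0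
  have hm1 : ‖(m : ℂ_[p])‖ ≤ 1 := IsUltrametricDist.norm_natCast_le_one _ _
  set r : ℝ := ‖(m : ℂ_[p])‖ / 2 with hr
  have hr0 : 0 < r := by positivity
  have hr1 : r ≤ 1 := by rw [hr]; linarith
  refine ⟨r * ‖(m : ℂ_[p])‖, by positivity, fun z hzA hz => ?_⟩
  let f : ℂ_[p] → ℂ_[p] := fun t => (z - ((1 + t) ^ m - 1 - m * t)) / m
  set s : Set ℂ_[p] := {t | t ∈ A ∧ ‖t‖ ≤ r} with hs
  -- products of elements close to one
  have hprod : ∀ x y : ℂ_[p], ‖x - 1‖ ≤ r → ‖y - 1‖ ≤ r → ‖x * y - 1‖ ≤ r := by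
    intro x y hx hy
    have e : x * y - 1 = (x - 1) * (y - 1) + ((x - 1) + (y - 1)) := by ring
    rw [e]
    refine (IsUltrametricDist.norm_add_le_max _ _).trans (max_le ?_ ?_)
    · rw [norm_mul]
      calc ‖x - 1‖ * ‖y - 1‖ ≤ r * 1 := by gcongr; linarith
        _ = r := mul_one r
    · exact (IsUltrametricDist.norm_add_le_max _ _).trans (max_le hx hy)
  have hpow : ∀ (x : ℂ_[p]) (i : ℕ), ‖x - 1‖ ≤ r → ‖x ^ i - 1‖ ≤ r := by
    intro x i hx
    induction i with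
    | zero => simp; exact hr0.le
    | succ i ih => rw [pow_succ]; exact hprod _ _ ih hx
  have hcontr : ∀ t t' : ℂ_[p], ‖t‖ ≤ r → ‖t'‖ ≤ r → ‖f t - f t'‖ ≤ (1 / 2) * ‖t - t'‖ := by
    intro t t' ht ht'
    have e : f t - f t' = -((t - t') * ∑ i ∈ Finset.range m,
        ((1 + t) ^ i * (1 + t') ^ (m - 1 - i) - 1)) / m := by
      have h1 := (Commute.all (1 + t) (1 + t')).geom_sum₂_mul m
      simp only [f]
      rw [← sub_div]
      congr 1
      rw [Finset.sum_sub_distrib, Finset.sum_const, Finset.card_range, nsmul_eq_mul, mul_one]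
      have h2 : (1 + t) - (1 + t') = t - t' := by ring
      rw [h2] at h1
      linear_combination h1
    have hsum : ‖∑ i ∈ Finset.range m, ((1 + t) ^ i * (1 + t') ^ (m - 1 - i) - 1)‖ ≤ r := by
      refine IsUltrametricDist.norm_sum_le_of_forall_le_of_nonneg hr0.le fun i _ => ?_
      refine hprod _ _ (hpow _ _ ?_) (hpow _ _ ?_)
      · simpa using ht
      · simpa using ht'
    rw [e, norm_div, norm_neg, norm_mul, div_le_iff₀ hmn]
    calc ‖t - t'‖ * _ ≤ ‖t - t'‖ * r := by gcongr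
      _ = 1 / 2 * ‖t - t'‖ * ‖(m : ℂ_[p])‖ := by rw [hr]; ring
  have hf0 : ‖f 0‖ ≤ r := by
    simp only [f]
    rw [norm_div, div_le_iff₀ hmn]
    simpa using hz
  have hmaps : Set.MapsTo f s s := by
    rintro t ⟨htA, ht⟩
    refine ⟨?_, ?_⟩
    · have hmA : (m : ℂ_[p]) ∈ A := natCast_mem A m
      exact A.div_mem (A.sub_mem hzA (A.sub_mem (A.sub_mem (A.pow_mem (A.add_mem A.one_mem htA) m)
        A.one_mem) (A.mul_mem hmA htA))) hmA
    · have e : f t = (f t - f 0) + f 0 := by ring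
      rw [e]
      refine (IsUltrametricDist.norm_add_le_max _ _).trans (max_le ?_ hf0)
      refine (hcontr t 0 ht (by simpa using hr0.le)).trans ?_
      rw [sub_zero]
      linarith
  have hcomp : IsComplete s := by
    apply IsClosed.isComplete
    exact hA.inter (isClosed_le continuous_norm continuous_const)
  have hcw : ContractingWith (1 / 2 : NNReal) (hmaps.restrict f s s) := by
    refine ⟨by rw [div_lt_one (by norm_num)]; norm_num, ?_⟩
    refine LipschitzWith.of_dist_le_mul fun x y => ?_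
    rw [Subtype.dist_eq, Subtype.dist_eq, dist_eq_norm, dist_eq_norm]
    have := hcontr x y x.2.2 y.2.2
    simpa using this
  obtain ⟨y, hys, hfy, -⟩ := hcw.exists_fixedPoint' (x := 0) hcomp hmaps
    ⟨A.zero_mem, by simpa using hr0.le⟩ (edist_ne_top _ _)
  refine ⟨1 + y, A.add_mem A.one_mem hys.1, ?_⟩
  have h1 : (z - ((1 + y) ^ m - 1 - m * y)) / m = y := hfy
  rw [div_eq_iff hm0] at h1
  linear_combination (-1) * h1

/-- a uniform power of the units of a completion is close to one -/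
theorem exists_pow {B : Type} [Field B] [NumberField B] (τ : B →+* ℂ_[p]) :
    ∃ M : ℕ, 0 < M ∧ ∀ b ∈ cl τ, ‖b‖ = 1 → ‖b ^ M - 1‖ ≤ 1 / 4 := by
  have hp : Nat.Prime p := Fact.out
  have hp0 : (0 : ℝ) < p := by exact_mod_cast hp.pos
  have hnp : ‖(p : ℂ_[p])‖ = (p : ℝ)⁻¹ := by
    have := PadicComplex.norm_extends' p (p : ℚ_[p])
    rw [Padic.norm_p] at this
    rw [← this]; simp
  have hp4 : ((p : ℝ)⁻¹) ^ 2 ≤ 1 / 4 := by
    have : (2 : ℝ) ≤ p := by exact_mod_cast hp.two_le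
    have h2 : (p : ℝ)⁻¹ ≤ 2⁻¹ := inv_anti₀ (by norm_num) this
    calc ((p : ℝ)⁻¹) ^ 2 ≤ (2⁻¹) ^ 2 := pow_le_pow_left₀ (by positivity) h2 2
      _ = 1 / 4 := by norm_num
  -- the prime induced by `τ`
  let P : Ideal (𝓞 B) :=
    { carrier := {x | ‖τ (x : B)‖ < 1}
      zero_mem' := by simp
      add_mem' := by
        intro x y hx hy
        have e : τ ((x + y : 𝓞 B) : B) = τ (x : B) + τ (y : B) := by simp
        change ‖τ ((x + y : 𝓞 B) : B)‖ < 1
        rw [e]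
        exact lt_of_le_of_lt (IsUltrametricDist.norm_add_le_max _ _) (max_lt hx hy)
      smul_mem' := by
        intro c x hx
        have e : τ ((c * x : 𝓞 B) : B) = τ (c : B) * τ (x : B) := by simp
        change ‖τ ((c * x : 𝓞 B) : B)‖ < 1
        rw [e, norm_mul]
        have h1 := norm_le_one_of_int τ c
        calc _ ≤ 1 * ‖τ (x : B)‖ := by gcongr
          _ < 1 := by rw [one_mul]; exact hx }
  have hPmem : ∀ x : 𝓞 B, x ∈ P ↔ ‖τ (x : B)‖ < 1 := fun x => Iff.rfl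
  have hPprime : P.IsPrime := by
    refine ⟨?_, ?_⟩
    · intro h
      have : (1 : 𝓞 B) ∈ P := by rw [h]; trivial
      rw [hPmem] at this
      simp at this
    · intro x y hxy
      rw [hPmem] at hxy ⊢
      rw [hPmem]
      by_contra hcon
      push Not at hcon
      have e : τ ((x * y : 𝓞 B) : B) = τ (x : B) * τ (y : B) := by simp
      rw [e, norm_mul] at hxy
      have := one_le_mul_of_one_le_of_one_le hcon.1 hcon.2
      linarith
  have hPbot : P ≠ ⊥ := by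
    intro h
    have h1 : ((p : ℕ) : 𝓞 B) ∈ P := by
      rw [hPmem]
      have : τ (((p : ℕ) : 𝓞 B) : B) = (p : ℂ_[p]) := by simp
      rw [this, hnp]
      exact inv_lt_one_of_one_lt₀ (by exact_mod_cast hp.one_lt)
    rw [h, Ideal.mem_bot] at h1
    exact hp.ne_zero (by exact_mod_cast h1)
  let v : HeightOneSpectrum (𝓞 B) := ⟨P, hPprime, hPbot⟩
  have hInd : Ind τ v := fun x => hPmem x
  -- the finite ring
  let I : Ideal (𝓞 B) := Ideal.span {((p : ℕ) : 𝓞 B) ^ 2}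
  have hI : I ≠ ⊥ := by
    intro h
    rw [Ideal.span_singleton_eq_bot] at h
    exact hp.ne_zero (by exact_mod_cast pow_eq_zero_iff (two_ne_zero) |>.1 h)
  have hfin : Finite (𝓞 B ⧸ I) := Ideal.finiteQuotientOfFreeOfNeBot I hI
  have _ : Fintype (𝓞 B ⧸ I) := Fintype.ofFinite _
  set c := Fintype.card (𝓞 B ⧸ I) with hc
  have hprod : ∀ x y : ℂ_[p], ‖x - 1‖ ≤ 1 / 4 → ‖y - 1‖ ≤ 1 / 4 → ‖x * y - 1‖ ≤ 1 / 4 := by
    intro x y hx hy
    have e : x * y - 1 = (x - 1) * (y - 1) + ((x - 1) + (y - 1)) := by ring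
    rw [e]
    refine (IsUltrametricDist.norm_add_le_max _ _).trans (max_le ?_ ?_)
    · rw [norm_mul]
      calc ‖x - 1‖ * ‖y - 1‖ ≤ 1 / 4 * 1 := by gcongr; linarith
        _ = 1 / 4 := mul_one _
    · exact (IsUltrametricDist.norm_add_le_max _ _).trans (max_le hx hy)
  have hpow : ∀ (x : ℂ_[p]) (i : ℕ), ‖x - 1‖ ≤ 1 / 4 → ‖x ^ i - 1‖ ≤ 1 / 4 := by
    intro x i hx
    induction i with
    | zero => simp
    | succ i ih => rw [pow_succ]; exact hprod _ _ ih hx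
  -- integers
  have hint : ∀ n : 𝓞 B, ‖τ (n : B)‖ = 1 → ‖τ (n : B) ^ (c.factorial) - 1‖ ≤ 1 / 4 := by
    intro n hn
    have hpig : ∃ i j : Fin (c + 1), i < j ∧ (Ideal.Quotient.mk I n) ^ (i : ℕ) =
        (Ideal.Quotient.mk I n) ^ (j : ℕ) := by
      obtain ⟨i, j, hij, he⟩ := Fintype.exists_ne_map_eq_of_card_lt
        (fun i : Fin (c + 1) => (Ideal.Quotient.mk I n) ^ (i : ℕ)) (by simp [hc])
      rcases lt_or_gt_of_ne hij with h | h
      · exact ⟨i, j, h, he⟩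
      · exact ⟨j, i, h, he.symm⟩
    obtain ⟨i, j, hij, he⟩ := hpig
    have h1 : n ^ (i : ℕ) * (n ^ ((j : ℕ) - i) - 1) ∈ I := by
      rw [← Ideal.Quotient.eq_zero_iff_mem, map_mul, map_sub, map_pow, map_pow, map_one, mul_sub,
        ← pow_add, mul_one]
      have : (i : ℕ) + ((j : ℕ) - i) = j := by
        have : (i : ℕ) < j := hij
        omega
      rw [this, ← he, sub_self]
    rw [Ideal.mem_span_singleton] at h1
    obtain ⟨w, hw⟩ := h1
    have h2 := congrArg (fun x : 𝓞 B => ‖τ (x : B)‖) hw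
    simp only [map_mul, map_sub, map_pow, map_one, norm_mul, norm_pow, map_natCast] at h2
    rw [hn, one_pow, one_mul, hnp] at h2
    have h3 : ‖τ (n : B) ^ ((j : ℕ) - i) - 1‖ ≤ 1 / 4 := by
      rw [h2]
      calc _ ≤ ((p : ℝ)⁻¹) ^ 2 * 1 := by
            gcongr
            exact norm_le_one_of_int τ w
        _ ≤ 1 / 4 := by rw [mul_one]; exact hp4
    have h4 : ((j : ℕ) - i) ∣ c.factorial := by
      apply Nat.dvd_factorial
      · have : (i : ℕ) < j := hij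
        omega
      · have := j.2
        omega
    obtain ⟨q, hq⟩ := h4
    rw [hq, pow_mul]
    exact hpow _ _ h3
  have hinv : ∀ x : ℂ_[p], ‖x‖ = 1 → ‖x - 1‖ ≤ 1 / 4 → ‖x⁻¹ - 1‖ ≤ 1 / 4 := by
    intro x hx h
    have hx0 : x ≠ 0 := by rintro rfl; simp at hx
    have e : x⁻¹ - 1 = -((x - 1) * x⁻¹) := by field_simp; ring
    rw [e, norm_neg, norm_mul, norm_inv, hx]
    simpa using h
  refine ⟨c.factorial, Nat.factorial_pos _, fun b hb hb1 => ?_⟩
  have hb' : b ∈ closure (τ.fieldRange : Set ℂ_[p]) := hb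
  obtain ⟨y, hy, hyb⟩ := Metric.mem_closure_iff.1 hb' (1 / 4) (by norm_num)
  obtain ⟨b', rfl⟩ := hy
  rw [dist_eq_norm] at hyb
  have hn : ‖τ b'‖ = 1 := by
    have : τ b' = b + -(b - τ b') := by ring
    rw [this, IsUltrametricDist.norm_add_eq_max_of_norm_ne_norm]
    · rw [norm_neg, hb1, max_eq_left (by linarith)]
    · rw [norm_neg, hb1]; linarith
  have hb'0 : τ b' ≠ 0 := by intro h; rw [h] at hn; simp at hn
  have hmain : ‖τ b' ^ c.factorial - 1‖ ≤ 1 / 4 := by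
    have hd : ∀ d : v.asIdeal.primeCompl, ‖τ (algebraMap (𝓞 B) B d)‖ = 1 := by
      intro d
      have h1 : ¬ ‖τ ((d : 𝓞 B) : B)‖ < 1 := d.2
      exact le_antisymm (norm_le_one_of_int τ d) (not_lt.1 h1)
    obtain ⟨n, d, hnd | hnd⟩ := v.exists_primeCompl_mul_eq_or_mul_eq b'
    · have h1 : τ b' * τ (algebraMap (𝓞 B) B d) = τ (algebraMap (𝓞 B) B n) := by
        rw [← map_mul, hnd]
      have h2 : ‖τ (algebraMap (𝓞 B) B n)‖ = 1 := by rw [← h1, norm_mul, hn, hd, one_mul]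
      have hd0 : τ (algebraMap (𝓞 B) B d) ≠ 0 := by
        intro h
        have := hd d
        rw [h, norm_zero] at this
        exact zero_ne_one this
      have h3 : τ b' = τ (algebraMap (𝓞 B) B n) * (τ (algebraMap (𝓞 B) B d))⁻¹ := by
        rw [← h1, mul_inv_cancel_right₀ hd0]
      rw [h3, mul_pow, inv_pow]
      refine hprod _ _ (hint n h2) (hinv _ ?_ (hint d (hd d)))
      rw [norm_pow, hd, one_pow]
    · have h1 : τ b' * τ (algebraMap (𝓞 B) B n) = τ (algebraMap (𝓞 B) B d) := by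
        rw [← map_mul, hnd]
      have h2 : ‖τ (algebraMap (𝓞 B) B n)‖ = 1 := by
        have := congrArg norm h1
        rwa [norm_mul, hn, hd, one_mul] at this
      have hn0 : τ (algebraMap (𝓞 B) B n) ≠ 0 := by
        intro h
        rw [h, norm_zero] at h2
        exact zero_ne_one h2
      have h3 : τ b' = τ (algebraMap (𝓞 B) B d) * (τ (algebraMap (𝓞 B) B n))⁻¹ := by
        rw [← h1, mul_inv_cancel_right₀ hn0]
      rw [h3, mul_pow, inv_pow]
      refine hprod _ _ (hint d (hd d)) (hinv _ ?_ (hint n h2))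
      rw [norm_pow, h2, one_pow]
  have e : b ^ c.factorial = (b * (τ b')⁻¹) ^ c.factorial * τ b' ^ c.factorial := by
    rw [← mul_pow, inv_mul_cancel_right₀ hb'0]
  rw [e]
  refine hprod _ _ (hpow _ _ ?_) hmain
  have e2 : b * (τ b')⁻¹ - 1 = (b - τ b') * (τ b')⁻¹ := by
    rw [sub_mul, mul_inv_cancel₀ hb'0]
  rw [e2, norm_mul, norm_inv, hn]
  simpa using hyb.le

theorem norm_unit {B : Type} [Field B] [NumberField B] (τ : B →+* ℂ_[p]) (u : (𝓞 B)ˣ) :
    ‖τ ((u : 𝓞 B) : B)‖ = 1 := by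
  apply le_antisymm (norm_le_one_of_int τ u)
  have h1 := norm_le_one_of_int τ ((u⁻¹ : (𝓞 B)ˣ) : 𝓞 B)
  have h2 : ‖τ ((u : 𝓞 B) : B)‖ * ‖τ (((u⁻¹ : (𝓞 B)ˣ) : 𝓞 B) : B)‖ = 1 := by
    rw [← norm_mul, ← map_mul, ← map_mul, Units.mul_inv, map_one, map_one, norm_one]
  have h0 : 0 ≤ ‖τ ((u : 𝓞 B) : B)‖ := norm_nonneg _
  nlinarith

theorem s_LOGB : S_LOGB := by
  intro p _ B _ _ L hL τ
  obtain ⟨M, hM, hMb⟩ := exists_pow τ
  have hM0 : (M : ℂ_[p]) ≠ 0 := by exact_mod_cast hM.ne'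
  have hMn : 0 < ‖(M : ℂ_[p])‖ := norm_pos_iff.2 hM0
  have hp : Nat.Prime p := Fact.out
  have hnp : ‖(p : ℂ_[p])‖ = (p : ℝ)⁻¹ := by
    have := PadicComplex.norm_extends' p (p : ℚ_[p])
    rw [Padic.norm_p] at this
    rw [← this]; simp
  refine ⟨‖(M : ℂ_[p])‖⁻¹, fun k u hu => ?_⟩
  obtain ⟨b, hb, hbu⟩ := hu
  have hu1 := norm_unit τ u
  have hpk : p ^ k ≠ 0 := pow_ne_zero _ hp.ne_zero
  have hb1 : ‖b‖ = 1 := by
    have : ‖b‖ ^ p ^ k = 1 := by rw [← norm_pow, hbu, hu1]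
    exact (pow_eq_one_iff_of_nonneg (norm_nonneg _) hpk).1 this
  have hb0 : b ≠ 0 := by rintro rfl; simp at hb1
  have h1 : L (τ ((u : 𝓞 B) : B)) = (p : ℂ_[p]) ^ k * L b := by
    rw [← hbu, L_pow hL b hb0]
    push_cast
    rfl
  have h2 : ‖(M : ℂ_[p])‖ * ‖L b‖ ≤ 1 := by
    rw [← norm_mul, ← L_pow hL b hb0]
    have e : b ^ M = 1 + (b ^ M - 1) := by ring
    rw [e, norm_L hL _ (hMb b hb hb1)]
    exact (hMb b hb hb1).trans (by norm_num)
  rw [h1, norm_mul, norm_pow, hnp, mul_comm]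
  have h3 : ‖L b‖ ≤ ‖(M : ℂ_[p])‖⁻¹ := by
    rw [← one_div, le_div_iff₀ hMn, mul_comm]
    exact h2
  gcongr

theorem s_TINY : S_TINY := by
  intro p _ H _ _ L hL σ hζ k
  have hp : Nat.Prime p := Fact.out
  obtain ⟨M, hM, hMb⟩ := exists_pow σ
  obtain ⟨s, N, hN, hMN⟩ := Nat.exists_eq_pow_mul_and_not_dvd hM.ne' p hp.ne_one
  have hAc : IsClosed (cl σ : Set ℂ_[p]) := Subfield.isClosed_topologicalClosure _
  obtain ⟨ε, hε, hroot⟩ := root_near (cl σ) hAc (p ^ (k + s)) (pow_pos hp.pos _)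
  refine ⟨ε, hε, fun u hu => ?_⟩
  have huA : σ ((u : 𝓞 H) : H) ∈ cl σ := Subfield.le_topologicalClosure _ ⟨_, rfl⟩
  have hu1 := norm_unit σ u
  have hu0 : σ ((u : 𝓞 H) : H) ≠ 0 := by intro h; rw [h] at hu1; simp at hu1
  set x := σ ((u : 𝓞 H) : H) with hx
  have h1 : ‖x ^ M - 1‖ ≤ ε := by
    have e : x ^ M = 1 + (x ^ M - 1) := by ring
    have h2 := norm_L hL _ (hMb x huA hu1)
    rw [← e, L_pow hL x hu0, norm_mul] at h2
    rw [← h2]
    have h3 : ‖(M : ℂ_[p])‖ ≤ 1 := IsUltrametricDist.norm_natCast_le_one _ _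
    calc _ ≤ 1 * ‖L x‖ := by gcongr
      _ ≤ ε := by rw [one_mul]; exact hu.le
  obtain ⟨y, hyA, hy⟩ := hroot (x ^ M - 1) ((cl σ).sub_mem ((cl σ).pow_mem huA M) (cl σ).one_mem) h1
  have hy2 : y ^ p ^ (k + s) = x ^ M := by rw [hy]; ring
  have hy0 : y ≠ 0 := by
    rintro rfl
    rw [zero_pow (pow_ne_zero _ hp.ne_zero)] at hy2
    exact pow_ne_zero M hu0 hy2.symm
  have h3 : x ^ N = y ^ p ^ k := by
    have h4 : (x ^ N / y ^ p ^ k) ^ p ^ s = 1 := by
      rw [div_pow, ← pow_mul, ← pow_mul, ← pow_add, hy2, mul_comm N, ← hMN,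
        div_self (pow_ne_zero _ hu0)]
    have h5 : (⟨x ^ N / y ^ p ^ k, (cl σ).div_mem ((cl σ).pow_mem huA _) ((cl σ).pow_mem hyA _)⟩ :
        cl σ) = 1 := by
      refine pow_one_of (p := p) (F := cl σ) ?_ s _ (Subtype.ext h4)
      intro ζ h
      exact Subtype.ext (hζ ζ ζ.2 (congrArg (fun z : cl σ => (z : ℂ_[p])) h))
    have h6 : x ^ N / y ^ p ^ k = 1 := congrArg (fun z : cl σ => (z : ℂ_[p])) h5
    exact (div_eq_one_iff_eq (pow_ne_zero _ hy0)).1 h6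
  have hcop : IsCoprime (N : ℤ) ((p : ℤ) ^ k) := by
    apply IsCoprime.pow_right
    rw [Nat.isCoprime_iff_coprime]
    exact ((Nat.Prime.coprime_iff_not_dvd hp).2 hN).symm
  obtain ⟨a, c, hac⟩ := hcop
  refine ⟨y ^ a * x ^ c, (cl σ).mul_mem ((cl σ).zpow_mem hyA a) ((cl σ).zpow_mem huA c), ?_⟩
  have h7 : x = x ^ (a * (N : ℤ) + c * (p : ℤ) ^ k) := by rw [hac, zpow_one]
  rw [zpow_add₀ hu0] at h7
  refine Eq.trans ?_ h7.symm
  rw [mul_pow]
  congr 1
  · rw [mul_comm a, zpow_mul, zpow_natCast, h3, ← zpow_natCast, ← zpow_natCast, ← zpow_mul,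
      ← zpow_mul]
    congr 1
    push_cast
    ring
  · rw [← zpow_natCast, ← zpow_mul]
    push_cast
    rfl

end Pool.Agent.L7h30.PX
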