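import Pool.Agent.L7h1.PX.Stm

/-!
# VD, VS, VU of project PX (statements of helper1)
-/

set_option autoImplicit false

namespace Pool.Agent.L7h30.PX

open NumberField TensorProduct Pool.Agent.W289.SL Module IsDedekindDomain Pool.Agent.L7h1.PX

/-- the valuation at a stable prime is invariant under the automorphism -/
theorem val_aut {B : Type} [Field B] [NumberField B] (g : B ≃+* B)
    (v : HeightOneSpectrum (𝓞 B))
    (h : ∀ x y : 𝓞 B, (y : B) = g (x : B) → (x ∈ v.asIdeal ↔ y ∈ v.asIdeal)) (a : B) :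
    v.valuation B (g a) = v.valuation B a := by
  let G : 𝓞 B ≃+* 𝓞 B := RingOfIntegers.mapRingEquiv g
  have hG : v.asIdeal.map (G : 𝓞 B →+* 𝓞 B) = v.asIdeal := by
    ext y
    rw [Ideal.mem_map_iff_of_surjective (G : 𝓞 B →+* 𝓞 B) G.surjective]
    constructor
    · rintro ⟨x, hx, rfl⟩
      exact (h x (G x) rfl).1 hx
    · intro hy
      refine ⟨G.symm y, (h (G.symm y) y ?_).2 hy, by simp⟩
      have : G (G.symm y) = y := by simp
      conv_lhs => rw [← this]
      rfl
  have hpow : ∀ (n : ℕ) (x : 𝓞 B), x ∈ v.asIdeal ^ n ↔ G x ∈ v.asIdeal ^ n := by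
    intro n x
    have h1 : (v.asIdeal ^ n).map (G : 𝓞 B →+* 𝓞 B) = v.asIdeal ^ n := by
      rw [Ideal.map_pow, hG]
    constructor
    · intro hx
      have := Ideal.mem_map_of_mem (G : 𝓞 B →+* 𝓞 B) hx
      rw [h1] at this
      exact this
    · intro hx
      rw [← h1, Ideal.mem_map_iff_of_surjective (G : 𝓞 B →+* 𝓞 B) G.surjective] at hx
      obtain ⟨x', hx', hxx⟩ := hx
      have : x' = x := G.injective hxx
      exact this ▸ hx'
  have hint : ∀ x : 𝓞 B, v.intValuation (G x) = v.intValuation x := by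
    intro x
    by_cases hx : x = 0
    · simp [hx]
    have hGx : G x ≠ 0 := by simpa using hx
    have e1 := v.intValuation_eq_exp_neg_multiplicity hx
    have e2 := v.intValuation_eq_exp_neg_multiplicity hGx
    apply le_antisymm
    · rw [e1, v.intValuation_le_pow_iff_mem, ← hpow, ← v.intValuation_le_pow_iff_mem, ← e1]
    · rw [e2, v.intValuation_le_pow_iff_mem, hpow, ← v.intValuation_le_pow_iff_mem, ← e2]
  obtain ⟨x, y, hy, rfl⟩ := IsFractionRing.div_surjective (A := 𝓞 B) a
  have e : ∀ z : 𝓞 B, g (algebraMap (𝓞 B) B z) = algebraMap (𝓞 B) B (G z) := fun z => rfl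
  rw [map_div₀ g, e, e, map_div₀, map_div₀, v.valuation_of_algebraMap, v.valuation_of_algebraMap,
    v.valuation_of_algebraMap, v.valuation_of_algebraMap, hint, hint]

theorem s_VD : S_VD := by
  intro p _ B _ _ k g v h a c s ha hs hg
  have hp : Nat.Prime p := Fact.out
  have h1 := val_aut g v h a
  rw [hg, map_mul, map_zpow₀, map_pow] at h1
  have hva : v.valuation B a ≠ 0 := by simpa using ha
  have hcop : IsCoprime (s - 1) ((p : ℤ) ^ k) := by
    apply IsCoprime.pow_right
    rw [Int.isCoprime_iff_gcd_eq_one, Int.gcd_comm, ← Int.isCoprime_iff_gcd_eq_one]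
    exact (Prime.coprime_iff_not_dvd (Nat.prime_iff_prime_int.1 hp)).2 hs
  obtain ⟨x, y, hxy⟩ := hcop
  have hc0 : v.valuation B c ^ p ^ k ≠ 0 := by
    intro h0
    rw [h0, mul_zero] at h1
    exact hva h1.symm
  have h2 : v.valuation B a ^ (s - 1) = (v.valuation B c ^ p ^ k)⁻¹ := by
    rw [zpow_sub₀ hva, zpow_one, div_eq_iff hva]
    rw [eq_inv_mul_iff_mul_eq₀ hc0, mul_comm]
    exact h1
  refine ⟨c ^ (-x) * a ^ y, ?_⟩
  have h3 : v.valuation B a = v.valuation B a ^ (x * (s - 1) + y * (p : ℤ) ^ k) := by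
    rw [hxy, zpow_one]
  rw [h3, zpow_add₀ hva, mul_comm x, zpow_mul, h2, map_mul, map_zpow₀, map_zpow₀, mul_pow]
  congr 1
  · rw [inv_zpow, ← zpow_neg, ← zpow_natCast, ← zpow_natCast, ← zpow_mul, ← zpow_mul]
    congr 1
    ring
  · rw [← zpow_natCast, ← zpow_mul]
    congr 1

theorem norm_le_one_of_int {p : ℕ} [Fact p.Prime] {B : Type} [Field B] [NumberField B]
    (τ : B →+* ℂ_[p]) (x : 𝓞 B) : ‖τ (x : B)‖ ≤ 1 := by
  by_contra hlt
  push Not at hlt
  obtain ⟨q, hq, hq0⟩ := x.isIntegral_coe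
  have h0 : Polynomial.eval₂ (Int.castRingHom ℂ_[p]) (τ (x : B)) q = 0 := by
    have := congrArg τ hq0
    rw [Polynomial.hom_eval₂, map_zero] at this
    rw [← this]
    congr 1
    exact RingHom.ext_int _ _
  rw [Polynomial.eval₂_eq_sum_range, Finset.sum_range_succ, Polynomial.Monic.coeff_natDegree hq,
    map_one, one_mul] at h0
  have h1 : τ (x : B) ^ q.natDegree = - ∑ i ∈ Finset.range q.natDegree,
      Int.castRingHom ℂ_[p] (q.coeff i) * τ (x : B) ^ i := by
    linear_combination h0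
  have h2 : ‖τ (x : B) ^ q.natDegree‖ < ‖τ (x : B)‖ ^ q.natDegree := by
    rw [h1, norm_neg]
    have hpos : 0 < ‖τ (x : B)‖ ^ q.natDegree := by positivity
    rcases Finset.eq_empty_or_nonempty (Finset.range q.natDegree) with he | hne
    · rw [he]; simpa using hpos
    refine lt_of_le_of_lt (IsUltrametricDist.exists_norm_finsetSum_le_of_nonempty hne _).choose_spec.2 ?_
    set i := (IsUltrametricDist.exists_norm_finsetSum_le_of_nonempty hne
      (fun i => Int.castRingHom ℂ_[p] (q.coeff i) * τ (x : B) ^ i)).choose with hi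
    have him : i ∈ Finset.range q.natDegree :=
      (IsUltrametricDist.exists_norm_finsetSum_le_of_nonempty hne
      (fun i => Int.castRingHom ℂ_[p] (q.coeff i) * τ (x : B) ^ i)).choose_spec.1
    rw [norm_mul, norm_pow]
    have hc : ‖Int.castRingHom ℂ_[p] (q.coeff i)‖ ≤ 1 := by
      rw [eq_intCast]
      exact IsUltrametricDist.norm_intCast_le_one _ _
    calc _ ≤ 1 * ‖τ (x : B)‖ ^ i := by gcongr
      _ < ‖τ (x : B)‖ ^ q.natDegree := by
        rw [one_mul]
        exact pow_lt_pow_right₀ hlt (Finset.mem_range.1 him)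
  rw [norm_pow] at h2
  exact lt_irrefl _ h2

theorem val_eq_one {p : ℕ} [Fact p.Prime] {B : Type} [Field B] [NumberField B]
    (τ : B →+* ℂ_[p]) (v : HeightOneSpectrum (𝓞 B)) (h : Ind τ v) (y : B) (hy : ‖τ y‖ = 1) :
    v.valuation B y = 1 := by
  have hunit : ∀ d : 𝓞 B, v.valuation B (algebraMap (𝓞 B) B d) = 1 ↔
      ‖τ (algebraMap (𝓞 B) B d)‖ = 1 := by
    intro d
    rw [v.valuation_of_algebraMap, HeightOneSpectrum.intValuation_eq_one_iff, h d]
    have := norm_le_one_of_int τ d
    constructor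
    · intro h1
      exact le_antisymm this (not_lt.1 h1)
    · intro h1 h2
      exact absurd h1 (ne_of_lt h2)
  obtain ⟨n, d, hnd | hnd⟩ := v.exists_primeCompl_mul_eq_or_mul_eq y
  · have hd : v.valuation B (algebraMap (𝓞 B) B d) = 1 := by
      rw [v.valuation_of_algebraMap, HeightOneSpectrum.intValuation_eq_one_iff]
      exact d.2
    have hn : v.valuation B (algebraMap (𝓞 B) B n) = 1 := by
      rw [hunit, ← hnd, map_mul, norm_mul, hy, (hunit _).1 hd, one_mul]
    have := congrArg (v.valuation B) hnd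
    rw [map_mul, hd, hn, mul_one] at this
    exact this
  · have hd : v.valuation B (algebraMap (𝓞 B) B d) = 1 := by
      rw [v.valuation_of_algebraMap, HeightOneSpectrum.intValuation_eq_one_iff]
      exact d.2
    have hn : v.valuation B (algebraMap (𝓞 B) B n) = 1 := by
      rw [hunit]
      have := congrArg (fun z => ‖τ z‖) hnd
      simp only [map_mul, norm_mul] at this
      rw [hy, one_mul, (hunit _).1 hd] at this
      exact this
    have := congrArg (v.valuation B) hnd
    rw [map_mul, hd, hn, mul_one] at this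
    exact this

theorem s_VS : S_VS := by
  intro p _ B _ _ m τ v h a ha hm hb
  obtain ⟨b, hb, hba⟩ := hb
  have hta : τ a ≠ 0 := by simpa using ha
  have hb0 : b ≠ 0 := by
    rintro rfl
    rw [zero_pow hm.ne'] at hba
    exact hta hba.symm
  have hb' : b ∈ closure (τ.fieldRange : Set ℂ_[p]) := hb
  obtain ⟨y, hy, hyb⟩ := Metric.mem_closure_iff.1 hb' ‖b‖ (norm_pos_iff.2 hb0)
  obtain ⟨b', rfl⟩ := hy
  have hn : ‖τ b'‖ = ‖b‖ := by
    rw [dist_eq_norm] at hyb
    have : τ b' = b + -(b - τ b') := by ring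
    rw [this]
    rw [IsUltrametricDist.norm_add_eq_max_of_norm_ne_norm]
    · rw [norm_neg, max_eq_left hyb.le]
    · rw [norm_neg]; exact ne_of_gt hyb
  have hb'0 : b' ≠ 0 := by
    rintro rfl
    rw [map_zero, norm_zero] at hn
    exact hb0 (norm_eq_zero.1 hn.symm)
  refine ⟨b', ?_⟩
  have h1 : v.valuation B (a / b' ^ m) = 1 := by
    apply val_eq_one τ v h
    rw [map_div₀, norm_div, map_pow, norm_pow, hn, ← hba, norm_pow]
    exact div_self (pow_ne_zero _ (norm_ne_zero_iff.2 hb0))
  rw [map_div₀, map_pow] at h1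
  exact (div_eq_one_iff_eq (pow_ne_zero _ (by simpa using hb'0))).1 h1

theorem s_VU : S_VU := by
  intro B H _ _ _ _ _ m w v hv hU a z u ha hz hm hu
  have : w.asIdeal.LiesOver v.asIdeal := ⟨hv⟩
  have hle : v.asIdeal.map (algebraMap (𝓞 B) (𝓞 H)) ≤ w.asIdeal := by
    rw [Ideal.map_le_iff_le_comap, hv]
  have he : v.asIdeal.ramificationIdx' w.asIdeal = 1 := by
    apply Ideal.ramificationIdx'_spec
    · rw [pow_one]; exact hle
    · rw [hv]; exact hU
  have h1 : v.valuation B a = w.valuation H (algebraMap B H a) := by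
    have := HeightOneSpectrum.valuation_liesOver (K := B) H v w a
    rw [he, pow_one] at this
    exact this
  have hu1 : w.valuation H ((u : 𝓞 H) : H) = 1 := by
    rw [w.valuation_of_algebraMap, HeightOneSpectrum.intValuation_eq_one_iff]
    intro hmem
    exact w.isPrime.ne_top (Ideal.eq_top_of_isUnit_mem _ hmem u.isUnit)
  rw [hu, map_mul, map_pow, ← h1] at hu1
  obtain ⟨b, hb⟩ := v.valuation_surjective B (w.valuation H z)⁻¹
  have hz0 : w.valuation H z ^ m ≠ 0 := pow_ne_zero _ (by simpa using hz)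
  refine ⟨b, ?_⟩
  rw [hb, inv_pow]
  exact eq_inv_of_mul_eq_one_left hu1

end Pool.Agent.L7h30.PX
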