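import Pool.Agent.L7h1.PX.Stm2
import Pool.Agent.L7h30.PX.Vd

/-!
# VD2 of project PX (statement of helper1)
-/

set_option autoImplicit false

namespace Pool.Agent.L7h30.PX

open NumberField Pool.Agent.W289.SL Module IsDedekindDomain Pool.Agent.L7h1.PX Polynomial

/-- `t ∈ (Φ_t, X^m - 1)` in `ℤ[X]`, `m` a proper divisor of `t` -/
theorem exists_comb (t m : ℕ) (ht : 0 < t) (hm : m ∣ t) (hne : m ≠ t) :
    ∃ α β : ℤ[X], C (t : ℤ) = α * cyclotomic t ℤ + β * (X ^ m - 1) := by
  obtain ⟨Θ, hΘ⟩ := X_pow_sub_one_dvd_prod_cyclotomic ℤ ht hm hne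
  set Ψ : ℤ[X] := ∏ i ∈ Nat.properDivisors t, cyclotomic i ℤ with hΨ
  have h1 : cyclotomic t ℤ * Ψ = X ^ t - 1 := by
    rw [← prod_cyclotomic_eq_X_pow_sub_one ht ℤ, ← Nat.cons_self_properDivisors ht.ne',
      Finset.prod_cons]
  have h2 := congrArg derivative h1
  rw [derivative_mul, derivative_sub, derivative_X_pow, derivative_one, sub_zero] at h2
  have h3 : (X : ℤ[X]) ^ t = X * X ^ (t - 1) := by
    rw [← pow_succ', Nat.sub_add_cancel ht]
  refine ⟨X * derivative Ψ - C (t : ℤ) * Ψ, X * derivative (cyclotomic t ℤ) * Θ, ?_⟩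
  have h4 : X * derivative (cyclotomic t ℤ) * Θ * (X ^ m - 1) = X * derivative (cyclotomic t ℤ) * Ψ := by
    rw [hΘ]; ring
  rw [h4]
  linear_combination (-X) * h2 + C (t : ℤ) * h1 + C (t : ℤ) * h3

/-- the additive valuation -/
noncomputable def phi {B : Type} [Field B] [NumberField B] (v : HeightOneSpectrum (𝓞 B)) :
    Additive Bˣ →+ ℤ where
  toFun a := WithZero.log (v.valuation B ((a.toMul : Bˣ) : B))
  map_zero' := by simp
  map_add' a b := by
    rw [toMul_add, Units.val_mul, map_mul, WithZero.log_mul]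
    · simp
    · simp

theorem stab_gcd {B : Type} (f : B → B) {V : Type} (v : B → V) (a b : ℕ)
    (ha : ∀ x, v (f^[a] x) = v x) (hb : ∀ x, v (f^[b] x) = v x) :
    ∀ x, v (f^[Nat.gcd a b] x) = v x := by
  induction a, b using Nat.gcd.induction with
  | H0 n => rw [Nat.gcd_zero_left]; exact hb
  | H1 m n hm ih =>
    rw [Nat.gcd_rec]
    refine ih ?_ ha
    intro x
    have h1 : ∀ q : ℕ, ∀ x, v (f^[m * q] x) = v x := by
      intro q
      induction q with
      | zero => intro x; simp
      | succ q ihq =>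
        intro x
        rw [Nat.mul_succ, Function.iterate_add_apply, ihq, ha]
    have h2 := h1 (n / m) (f^[n % m] x)
    rw [← Function.iterate_add_apply, Nat.div_add_mod, hb] at h2
    exact h2.symm

theorem coe_iter {B : Type} [Field B] (δ : B ≃+* B) (n : ℕ) (a : Additive Bˣ) :
    (((((bE (δ : B →+* B)) ^ n) a).toMul : Bˣ) : B) = (δ : B → B)^[n] ((a.toMul : Bˣ) : B) := by
  induction n with
  | zero => simp
  | succ n ih =>
    rw [pow_succ', Module.End.mul_apply, Function.iterate_succ_apply', ← ih]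
    rfl

theorem s_VD2 : S_VD2 := by
  intro p _ t ht
  have hp : Nat.Prime p := Fact.out
  refine ⟨padicValNat p t, fun h => padicValNat.eq_zero_of_not_dvd h, ?_⟩
  intro B _ _ k δ m v hδ hm hmt hst a c hac
  -- stability under `δ^m`
  have hPm : ∀ x : B, v.valuation B ((δ : B → B)^[m] x) = v.valuation B x := by
    have hpow : ∀ n : ℕ, ∃ g : B ≃+* B, ∀ x, g x = (δ : B → B)^[n] x := by
      intro n
      induction n with
      | zero => exact ⟨RingEquiv.refl B, fun x => rfl⟩
      | succ n ih =>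
        obtain ⟨g, hg⟩ := ih
        refine ⟨g.trans δ, fun x => ?_⟩
        rw [Function.iterate_succ_apply', ← hg]
        rfl
    obtain ⟨g, hg⟩ := hpow m
    intro x
    rw [← hg]
    exact val_aut g v (fun x y h => hst x y (by rw [h, hg])) x
  have hPt : ∀ x : B, v.valuation B ((δ : B → B)^[t] x) = v.valuation B x := fun x => by rw [hδ]
  set m' := Nat.gcd m t with hm'
  have hPm' := stab_gcd (δ : B → B) (v.valuation B) m t hPm hPt
  have hm't : m' ∣ t := Nat.gcd_dvd_right m t
  have hm'ne : m' ≠ t := by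
    intro h
    have := Nat.le_of_dvd hm (Nat.gcd_dvd_left m t)
    rw [← hm', h] at this
    omega
  obtain ⟨α, β, hαβ⟩ := exists_comb t m' ht hm't hm'ne
  have h1 := congrArg (fun q : ℤ[X] => phi v ((aeval (bE (δ : B →+* B)) q) (Additive.ofMul a))) hαβ
  rw [aeval_C, map_add, map_mul, mul_comm β, map_mul, LinearMap.add_apply, Module.End.mul_apply,
    Module.End.mul_apply, hac, map_add, map_sub, map_pow, aeval_X, map_one, LinearMap.sub_apply,
    Module.End.one_apply, map_sub] at h1
  have h2 : ∀ b : Additive Bˣ, phi v (((bE (δ : B →+* B)) ^ m') b) = phi v b := by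
    intro b
    change WithZero.log (v.valuation B (((((bE (δ : B →+* B)) ^ m') b).toMul : Bˣ) : B)) =
      WithZero.log (v.valuation B ((b.toMul : Bˣ) : B))
    rw [coe_iter, hPm']
  rw [h2, sub_self, add_zero, map_nsmul, map_nsmul] at h1
  have h3 : phi v ((algebraMap ℤ (Module.End ℤ (Additive Bˣ)) (t : ℤ)) (Additive.ofMul a)) =
      t * phi v (Additive.ofMul a) := by
    rw [Module.algebraMap_end_apply, map_zsmul, smul_eq_mul]
  rw [h3, nsmul_eq_mul] at h1
  -- divisibility
  have h4 : ((p : ℤ) ^ (k - padicValNat p t)) ∣ phi v (Additive.ofMul a) := by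
    rcases le_total k (padicValNat p t) with hk | hk
    · rw [Nat.sub_eq_zero_of_le hk, pow_zero]; exact one_dvd _
    obtain ⟨t', ht'⟩ := pow_padicValNat_dvd (p := p) (n := t)
    have hpt' : ¬ p ∣ t' := by
      intro h
      obtain ⟨q, hq⟩ := h
      have : p ^ (padicValNat p t + 1) ∣ t := ⟨q, by rw [pow_succ, mul_assoc, ← hq]; exact ht'⟩
      exact pow_succ_padicValNat_not_dvd ht.ne' this
    have h5 : (p : ℤ) ^ (k - padicValNat p t) ∣ (t' : ℤ) * phi v (Additive.ofMul a) := by
      refine ⟨phi v (aeval (bE (δ : B →+* B)) α (Additive.ofMul c)), ?_⟩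
      have hp0 : ((p : ℤ) ^ padicValNat p t) ≠ 0 := pow_ne_zero _ (by exact_mod_cast hp.ne_zero)
      apply mul_left_cancel₀ hp0
      rw [← mul_assoc, ← mul_assoc, ← pow_add, Nat.add_sub_cancel' hk]
      have e1 : (p : ℤ) ^ padicValNat p t * (t' : ℤ) = (t : ℤ) := by
        conv_rhs => rw [ht']
        push_cast; rfl
      rw [e1, h1]
      push_cast
      rfl
    refine IsCoprime.dvd_of_dvd_mul_left ?_ h5
    apply IsCoprime.pow_left
    rw [Nat.isCoprime_iff_coprime]
    exact (Nat.Prime.coprime_iff_not_dvd hp).2 hpt'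
  obtain ⟨q, hq⟩ := h4
  obtain ⟨b, hb⟩ := v.valuation_surjective B (WithZero.exp q)
  refine ⟨b, ?_⟩
  have h6 : phi v (Additive.ofMul a) = WithZero.log (v.valuation B (a : B)) := rfl
  have h7 : v.valuation B (a : B) ≠ 0 := by simp
  rw [hb, ← WithZero.exp_log h7, ← h6, hq, ← WithZero.exp_nsmul]
  congr 1

end Pool.Agent.L7h30.PX
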