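import Pool.Agent.L7h1.PX.Stm3
import Pool.Agent.L7h30.PX.Vd2
import Pool.Agent.L7h30.PX.Tiny
import Pool.Agent.L7h30.PX.H90

/-!
# DOWN of project PX (statement of helper1)
-/

set_option autoImplicit false

namespace Pool.Agent.L7h30.PX

open NumberField Pool.Agent.W289.SL Module IsDedekindDomain Pool.Agent.L7h1.PX Polynomial

theorem aeval_comm {M N : Type} [AddCommGroup M] [AddCommGroup N] (f : M →ₗ[ℤ] N)
    (A : Module.End ℤ M) (A' : Module.End ℤ N) (h : ∀ x, f (A x) = A' (f x)) (q : ℤ[X]) (x : M) :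
    f (aeval A q x) = aeval A' q (f x) := by
  induction q using Polynomial.induction_on' generalizing x with
  | add p q hp hq => rw [map_add, map_add, LinearMap.add_apply, LinearMap.add_apply, map_add, hp, hq]
  | monomial n a =>
    have hpow : ∀ (n : ℕ) (x : M), f ((A ^ n) x) = (A' ^ n) (f x) := by
      intro n
      induction n with
      | zero => intro x; simp
      | succ n ih =>
        intro x
        rw [pow_succ, Module.End.mul_apply, ih, h, pow_succ, Module.End.mul_apply]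
    rw [aeval_monomial, aeval_monomial, Module.End.mul_apply, Module.End.mul_apply,
      Module.algebraMap_end_apply, Module.algebraMap_end_apply, map_zsmul, hpow]

theorem dvd_mono {B : Type} [Field B] [NumberField B] {p : ℕ} (hp : 0 < p)
    (v : HeightOneSpectrum (𝓞 B)) (k c : ℕ) (a : B) (h : Dvd v (p ^ k) a) : Dvd v (p ^ (k - c)) a := by
  obtain ⟨b, hb⟩ := h
  refine ⟨b ^ p ^ (k - (k - c)), ?_⟩
  rw [hb, map_pow, ← pow_mul, ← pow_add]
  congr 2
  omega

theorem exists_above {B H : Type} [Field B] [NumberField B] [Field H] [NumberField H]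
    [Algebra B H] (v : HeightOneSpectrum (𝓞 B)) : ∃ w : HeightOneSpectrum (𝓞 H),
      v.asIdeal = w.asIdeal.comap (algebraMap (𝓞 B) (𝓞 H)) := by
  have hinj : Function.Injective (algebraMap (𝓞 B) (𝓞 H)) :=
    FaithfulSMul.algebraMap_injective (𝓞 B) (𝓞 H)
  have := v.isPrime
  obtain ⟨P, hP, hPv⟩ := Ideal.exists_ideal_over_prime_of_isIntegral_of_isDomain (S := 𝓞 H) v.asIdeal
    (by rw [(RingHom.injective_iff_ker_eq_bot _).1 hinj]; exact bot_le)
  refine ⟨⟨P, hP, ?_⟩, hPv.symm⟩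
  rintro rfl
  apply v.ne_bot
  rw [← hPv, ← RingHom.ker_eq_comap_bot]
  exact (RingHom.injective_iff_ker_eq_bot _).1 hinj

/-- the embedding of the units -/
noncomputable def nuL (H : Type) [Field H] [NumberField H] : Additive (𝓞 H)ˣ →ₗ[ℤ] Additive Hˣ :=
  (MonoidHom.toAdditive (Units.map (algebraMap (𝓞 H) H : 𝓞 H →* H))).toIntLinearMap

/-- the embedding of the multiplicative groups -/
noncomputable def ioL (B H : Type) [Field B] [Field H] [Algebra B H] :
    Additive Bˣ →ₗ[ℤ] Additive Hˣ :=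
  (MonoidHom.toAdditive (Units.map (algebraMap B H : B →* H))).toIntLinearMap

set_option maxHeartbeats 1000000 in
theorem s_DOWN : S_DOWN := by
  intro p _ t ht
  have hp : Nat.Prime p := Fact.out
  obtain ⟨c₁, hc₁, hVD⟩ := s_VD2 p t ht
  refine ⟨c₁, ?_⟩
  intro B H _ _ _ _ _ _ n hn γ hγ δ δB hδ hδt L hL S hS hζS Q hOk k y h1 h2 h3
  have hpk : 0 < p ^ k := pow_pos hp.pos k
  -- embeddings over `τ`
  have hext : ∀ τ : B →+* ℂ_[p], ∃ σ : H →+* ℂ_[p], σ.comp (algebraMap B H) = τ := by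
    intro τ
    let _ : Algebra B ℂ_[p] := τ.toAlgebra
    let f : H →ₐ[B] ℂ_[p] := IsAlgClosed.lift
    exact ⟨f.toRingHom, f.comp_algebraMap⟩
  have hdes : ∀ τ ∈ S, ∀ σ : H →+* ℂ_[p], σ.comp (algebraMap B H) = τ →
      (∀ ζ ∈ cl σ, ζ ^ p = 1 → ζ = 1) ∧ ∀ k : ℕ, ∀ b ∈ cl σ,
        b ^ p ^ k ∈ cl τ → b ∈ cl τ := by
    intro τ hτ σ hσ
    have := s_DES p B H n hn σ (by rw [hσ]; exact hζS τ hτ)
    rw [hσ] at this
    exact this
  have hμ : ∀ ζ : H, ζ ^ p = 1 → ζ = 1 := by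
    intro ζ hζ
    obtain ⟨τ, hτ⟩ := hS
    obtain ⟨σ, hσ⟩ := hext τ
    have := (hdes τ hτ σ hσ).1 (σ ζ) (Subfield.le_topologicalClosure _ ⟨ζ, rfl⟩)
      (by rw [← map_pow, hζ, map_one])
    exact σ.injective (by rw [this, map_one])
  have hμk : ∀ ζ : H, ζ ^ p ^ k = 1 → ζ = 1 := fun ζ hζ => pow_one_of hμ k ζ hζ
  have hy0 : ((y : 𝓞 H) : H) ≠ 0 := by simp
  -- all Galois conjugates
  have hgal : ∀ g : H ≃ₐ[B] H, ∃ v : H, g ((y : 𝓞 H) : H) = ((y : 𝓞 H) : H) * v ^ p ^ k := by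
    have hi : ∀ i : ℕ, ∃ v : H, (γ ^ i) ((y : 𝓞 H) : H) = ((y : 𝓞 H) : H) * v ^ p ^ k := by
      intro i
      induction i with
      | zero => exact ⟨1, by simp⟩
      | succ i ih =>
        obtain ⟨v, hv⟩ := ih
        obtain ⟨w, hw⟩ := h1
        refine ⟨((w : 𝓞 H) : H) * γ v, ?_⟩
        rw [pow_succ', AlgEquiv.mul_apply, hv, map_mul, map_pow, hw, mul_pow]
        ring
    intro g
    obtain ⟨i, rfl⟩ := hγ g
    exact hi i
  obtain ⟨a, z, ha, hz, hyaz⟩ := s_H90 p B H hμ k ((y : 𝓞 H) : H) hy0 hgal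
  have haH : algebraMap B H a ≠ 0 := by simpa using ha
  -- local powers
  have hloc : ∀ τ ∈ S, ∃ b ∈ cl τ, b ^ p ^ k = τ a := by
    intro τ hτ
    obtain ⟨σ, hσ⟩ := hext τ
    obtain ⟨hd1, hd2⟩ := hdes τ hτ σ hσ
    obtain ⟨ε, hε, hεu⟩ := s_TINY p H L hL σ hd1 k
    obtain ⟨w, hw⟩ := h3 ε hε
    obtain ⟨b, hb, hby⟩ := hεu (y * w ^ p ^ k) (hw σ (by rw [hσ]; exact hτ))
    have hσw : σ ((w : 𝓞 H) : H) ≠ 0 := by simp
    have hσz : σ z ≠ 0 := by simpa using hz
    have hmem : ∀ x : H, σ x ∈ cl σ := fun x => Subfield.le_topologicalClosure _ ⟨x, rfl⟩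
    have hτa : τ a = σ (algebraMap B H a) := by rw [← hσ]; rfl
    have e1 : σ ((((y * w ^ p ^ k : (𝓞 H)ˣ)) : 𝓞 H) : H) =
        σ (algebraMap B H a) * σ z ^ p ^ k * σ ((w : 𝓞 H) : H) ^ p ^ k := by
      have e0 : ((((y * w ^ p ^ k : (𝓞 H)ˣ)) : 𝓞 H) : H) = ((y : 𝓞 H) : H) * ((w : 𝓞 H) : H) ^ p ^ k := by
        simp
      rw [e0, map_mul, map_pow, hyaz, map_mul, map_pow]
    set b' := b / (σ z * σ ((w : 𝓞 H) : H)) with hb'
    have hb'mem : b' ∈ cl σ := (cl σ).div_mem hb ((cl σ).mul_mem (hmem _) (hmem _))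
    have hb'pow : b' ^ p ^ k = τ a := by
      rw [hb', div_pow, hby, e1, hτa, mul_pow]
      field_simp
    refine ⟨b', hd2 k b' hb'mem ?_, hb'pow⟩
    rw [hb'pow]
    exact Subfield.le_topologicalClosure _ ⟨a, rfl⟩
  -- the eigenvalue condition
  let A : Bˣ := Units.mk0 a ha
  let Z : Hˣ := Units.mk0 z hz
  have hcond : ∃ c : Bˣ, aeval (bE (δB : B →+* B)) (cyclotomic t ℤ) (Additive.ofMul A) =
      p ^ k • Additive.ofMul c := by
    obtain ⟨w, hw⟩ := h2
    have hν : ∀ x, nuL H (uE (δ : H →+* H) x) = bE (δ : H →+* H) (nuL H x) := by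
      intro x
      apply Additive.toMul.injective
      apply Units.ext
      rfl
    have hι : ∀ x, ioL B H (bE (δB : B →+* B) x) = bE (δ : H →+* H) (ioL B H x) := by
      intro x
      apply Additive.toMul.injective
      apply Units.ext
      exact (hδ _).symm
    have e1 : nuL H (Additive.ofMul y) = ioL B H (Additive.ofMul A) + p ^ k • Additive.ofMul Z := by
      apply Additive.toMul.injective
      apply Units.ext
      change ((y : 𝓞 H) : H) = algebraMap B H a * (((p ^ k • Additive.ofMul Z).toMul : Hˣ) : H)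
      rw [toMul_nsmul, toMul_ofMul, Units.val_pow_eq_pow_val]
      exact hyaz
    have e2 := congrArg (nuL H) hw
    rw [aeval_comm (nuL H) _ _ hν, e1, map_add, map_nsmul, map_nsmul,
      ← aeval_comm (ioL B H) _ _ hι] at e2
    set A' := aeval (bE (δB : B →+* B)) (cyclotomic t ℤ) (Additive.ofMul A) with hA'
    set Z' := aeval (bE (δ : H →+* H)) (cyclotomic t ℤ) (Additive.ofMul Z) with hZ'
    have e3 : ioL B H A' = p ^ k • (nuL H (Additive.ofMul w) - Z') := by
      rw [nsmul_sub]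
      exact eq_sub_of_add_eq e2
    set c' : Additive Hˣ := nuL H (Additive.ofMul w) - Z' with hc'
    have e4 : algebraMap B H ((A'.toMul : Bˣ) : B) = ((c'.toMul : Hˣ) : H) ^ p ^ k := by
      have := congrArg (fun x : Additive Hˣ => ((x.toMul : Hˣ) : H)) e3
      simp only [toMul_nsmul, Units.val_pow_eq_pow_val] at this
      exact this
    have hc'0 : ((c'.toMul : Hˣ) : H) ≠ 0 := Units.ne_zero _
    have hfix : ((c'.toMul : Hˣ) : H) ∈ (⊥ : IntermediateField B H) := by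
      rw [IsGalois.mem_bot_iff_fixed]
      intro g
      have e5 : (g ((c'.toMul : Hˣ) : H) / ((c'.toMul : Hˣ) : H)) ^ p ^ k = 1 := by
        rw [div_pow, ← map_pow, ← e4, AlgEquiv.commutes]
        exact div_self (by rw [e4]; exact pow_ne_zero _ hc'0)
      exact (div_eq_one_iff_eq hc'0).1 (hμk _ e5)
    rw [IntermediateField.mem_bot] at hfix
    obtain ⟨c, hc⟩ := hfix
    have hc0 : c ≠ 0 := by
      rintro rfl
      rw [map_zero] at hc
      exact hc'0 hc.symm
    refine ⟨Units.mk0 c hc0, ?_⟩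
    apply Additive.toMul.injective
    apply Units.ext
    rw [toMul_nsmul, toMul_ofMul, Units.val_pow_eq_pow_val, Units.val_mk0]
    apply (algebraMap B H).injective
    rw [e4, map_pow, hc]
  -- valuations
  have hval : ∀ v : HeightOneSpectrum (𝓞 B), Dvd v (p ^ k) a ∨
      ((v ∈ Q ∨ ¬ p ∣ t) ∧ Dvd v (p ^ (k - c₁)) a) := by
    intro v
    obtain ⟨w, hw⟩ := exists_above (H := H) v
    rcases hOk w with ⟨σ, hσS, hσw⟩ | hU | ⟨v', hv', hQ, m, hm, hmt, hst⟩
    · left
      refine s_VS p B (p ^ k) (σ.comp (algebraMap B H)) v ?_ a ha hpk (hloc _ hσS)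
      intro x
      rw [hw, Ideal.mem_comap, hσw]
      rfl
    · left
      exact s_VU B H (p ^ k) w v hw hU a z y ha hz hpk hyaz
    · right
      have hvv : v' = v := by
        apply HeightOneSpectrum.ext
        rw [hv', hw]
      rw [hvv] at hQ hst
      refine ⟨hQ, ?_⟩
      obtain ⟨c, hc⟩ := hcond
      exact hVD B k δB m v hδt hm hmt hst A c hc
  refine ⟨A, Z, hyaz, ?_, ?_, hloc, hcond⟩
  · intro v hvQ
    rcases hval v with h | ⟨h, h'⟩
    · exact h
    · rcases h with h | h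
      · exact absurd h hvQ
      · rw [hc₁ h, Nat.sub_zero] at h'
        exact h'
  · intro v
    rcases hval v with h | ⟨-, h⟩
    · exact dvd_mono hp.pos v k c₁ a h
    · exact h

end Pool.Agent.L7h30.PX
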